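import Mathlib

set_option autoImplicit false

namespace Pool.Agent.Results.MP_2c0ed3_al.RadicalTransfer

universe u

section defs

variable (F : Type u) [Field F] (A : Type u) [LieRing A] [LieAlgebra F A]

/-- Right multiplication `R_a : x ↦ [x, a]`. -/
def R (a : A) : Module.End F A where
  toFun x := ⁅x, a⁆
  map_add' x y := add_lie x y a
  map_smul' c x := smul_lie c x a

/-- The multiplication algebra `A*`: the associative subalgebra (without adjoined identity) of
`End_F(A)` generated by all right multiplications. -/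
def MultAlg : NonUnitalSubalgebra F (Module.End F A) :=
  NonUnitalAlgebra.adjoin F (Set.range (R F A))

/-- Engel Lie algebra: for all `x`, `y` there is `n ≥ 1` with `[...[[y, x], x], ..., x] = 0`
(`n` brackets with `x`). -/
def IsEngel : Prop := ∀ x y : A, ∃ n : ℕ, 1 ≤ n ∧ ((R F A x) ^ n) y = 0

/-- A Lie ideal is locally nilpotent if each of its finitely generated subalgebras is
nilpotent. -/
def LocNilLie (I : LieIdeal F A) : Prop :=
  ∀ s : Finset A, (∀ x ∈ s, x ∈ I) →
    LieRing.IsNilpotent (LieSubalgebra.lieSpan F A (s : Set A))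

/-- The locally nilpotent radical of a Lie algebra: the sum of all locally nilpotent ideals. -/
noncomputable def LieRadical : LieIdeal F A := sSup {I : LieIdeal F A | LocNilLie F A I}

end defs

section assoc

variable (F : Type u) [Field F] {E : Type u} [Ring E] [Algebra F E]

/-- A subspace `J` of an associative algebra is locally nilpotent if for every finite subset `s`
of `J` the subalgebra (without identity) generated by `s` is nilpotent, that is, for
some `n` all products of `n` elements of that subalgebra vanish. -/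
def LocNilAssoc (J : Submodule F E) : Prop :=
  ∀ s : Finset E, (∀ x ∈ s, x ∈ J) → ∃ n : ℕ, ∀ l : List E, l.length = n →
    (∀ x ∈ l, x ∈ NonUnitalAlgebra.adjoin F (s : Set E)) → l.prod = 0

/-- The two-sided ideals of a subalgebra `B` (without identity). -/
def IsIdealOf (B : NonUnitalSubalgebra F E) (J : Submodule F E) : Prop :=
  J ≤ B.toSubmodule ∧ ∀ b ∈ B, ∀ j ∈ J, b * j ∈ J ∧ j * b ∈ J

/-- The locally nilpotent (Levitzki) radical of the associative algebra `B`: the sum of all
locally nilpotent two-sided ideals of `B`. -/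
noncomputable def AssocRadical (B : NonUnitalSubalgebra F E) : Submodule F E :=
  sSup {J : Submodule F E | IsIdealOf F B J ∧ LocNilAssoc F J}

end assoc

section crit

variable {F : Type u} [Field F] {A : Type u} [LieRing A] [LieAlgebra F A]

lemma R_apply (a x : A) : R F A a x = ⁅x, a⁆ := rfl

/-- a criterion for nilpotency -/
lemma nilpotent_of_chain (L : LieSubalgebra F A) (P : ℕ → Submodule F A)
    (h0 : ∀ x ∈ L, x ∈ P 0) (h1 : ∀ k, ∀ x ∈ L, ∀ y ∈ L, y ∈ P k → ⁅x, y⁆ ∈ P (k + 1))
    (n : ℕ) (hn : ∀ y ∈ P n, y = 0) : LieRing.IsNilpotent L := by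
  have key : ∀ k, ∀ y ∈ LieModule.lowerCentralSeries F L L k, (y : A) ∈ P k := by
    intro k
    induction k with
    | zero => intro y _; exact h0 y y.2
    | succ k ih =>
      intro y hy
      rw [LieModule.lowerCentralSeries_succ, ← LieSubmodule.mem_toSubmodule,
        LieSubmodule.lieIdeal_oper_eq_linear_span'] at hy
      induction hy using Submodule.span_induction with
      | mem z hz =>
        obtain ⟨x, _, m, hm, rfl⟩ := hz
        exact h1 k x x.2 m m.2 (ih m hm)
      | zero => exact Submodule.zero_mem _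
      | add a b _ _ ha hb => exact Submodule.add_mem _ ha hb
      | smul c a _ ha => exact Submodule.smul_mem _ c ha
  rw [LieRing.IsNilpotent, LieModule.isNilpotent_iff F]
  refine ⟨n, ?_⟩
  rw [LieSubmodule.eq_bot_iff]
  intro y hy
  exact Subtype.ext (hn _ (key n y hy))

end crit

section assoclem

variable {F : Type u} [Field F] {E : Type u} [Ring E] [Algebra F E]

/-- spans of long products -/
def W (F : Type u) [Field F] {E : Type u} [Ring E] [Algebra F E] (T : Set E) (k : ℕ) :
    Submodule F E :=
  Submodule.span F {x | ∃ l : List E, k ≤ l.length ∧ (∀ y ∈ l, y ∈ T) ∧ x = l.prod}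

lemma W_mul (T : Set E) (j k : ℕ) (x y : E) (hx : x ∈ W F T j) (hy : y ∈ W F T k) :
    x * y ∈ W F T (j + k) := by
  have : W F T j * W F T k ≤ W F T (j + k) := by
    rw [W, W, Submodule.span_mul_span, W]
    apply Submodule.span_mono
    rintro _ ⟨_, ⟨l, hl, hlT, rfl⟩, _, ⟨l', hl', hlT', rfl⟩, rfl⟩
    refine ⟨l ++ l', ?_, ?_, ?_⟩
    · rw [List.length_append]; omega
    · intro z hz
      rcases List.mem_append.1 hz with h | h
      · exact hlT z h
      · exact hlT' z h
    · rw [List.prod_append]
  exact this (Submodule.mul_mem_mul hx hy)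

lemma W_anti (T : Set E) {j k : ℕ} (h : j ≤ k) : W F T k ≤ W F T j := by
  apply Submodule.span_mono
  rintro _ ⟨l, hl, hlT, rfl⟩
  exact ⟨l, h.trans hl, hlT, rfl⟩

lemma adjoin_le_W (T : Set E) (x : E) (hx : x ∈ NonUnitalAlgebra.adjoin F T) : x ∈ W F T 1 := by
  induction hx using NonUnitalAlgebra.adjoin_induction with
  | mem x hx => exact Submodule.subset_span ⟨[x], by simp, by simpa using hx, by simp⟩
  | add x y _ _ hx hy => exact Submodule.add_mem _ hx hy
  | zero => exact Submodule.zero_mem _
  | mul x y _ _ hx hy => exact W_anti T (by norm_num) (W_mul T 1 1 x y hx hy)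
  | smul c x _ hx => exact Submodule.smul_mem _ c hx

lemma prod_W (T : Set E) (l : List E) (hl : ∀ x ∈ l, x ∈ W F T 1) : l.prod ∈ W F T l.length := by
  induction l with
  | nil => exact Submodule.subset_span ⟨[], by simp, by simp, by simp⟩
  | cons a l ih =>
    rw [List.prod_cons, List.length_cons, Nat.add_comm]
    exact W_mul T 1 _ _ _ (hl a List.mem_cons_self) (ih fun x hx => hl x (List.mem_cons_of_mem _ hx))

/-- all products of `n` elements of `T` vanish for some `n` -/
def NilSet (T : Set E) : Prop := ∃ n : ℕ, ∀ l : List E, l.length = n → (∀ x ∈ l, x ∈ T) → l.prod = 0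

lemma W_eq_zero {T : Set E} {n : ℕ} (h : ∀ l : List E, l.length = n → (∀ x ∈ l, x ∈ T) → l.prod = 0)
    (x : E) (hx : x ∈ W F T n) : x = 0 := by
  induction hx using Submodule.span_induction with
  | mem x hx =>
    obtain ⟨l, hl, hlT, rfl⟩ := hx
    rw [← List.take_append_drop n l, List.prod_append, h (l.take n) (by simp; omega)
      (fun x hx => hlT x (List.mem_of_mem_take hx)), zero_mul]
  | zero => rfl
  | add a b _ _ ha hb => rw [ha, hb, add_zero]
  | smul c a _ ha => rw [ha, smul_zero]

lemma nil_of_subset {T : Set E} {s : Set E} (h : NilSet T) (hs : ∀ x ∈ s, x ∈ W F T 1) :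
    ∃ n : ℕ, ∀ l : List E, l.length = n → (∀ x ∈ l, x ∈ NonUnitalAlgebra.adjoin F s) → l.prod = 0 := by
  obtain ⟨n, hn⟩ := h
  refine ⟨n, fun l hl hls => ?_⟩
  refine W_eq_zero (F := F) hn _ ?_
  rw [← hl]
  apply prod_W
  intro x hx
  have hx1 := hls x hx
  clear hx
  induction hx1 using NonUnitalAlgebra.adjoin_induction with
  | mem x hx => exact hs x hx
  | add x y _ _ hx hy => exact Submodule.add_mem _ hx hy
  | zero => exact Submodule.zero_mem _
  | mul x y _ _ hx hy => exact W_anti T (by norm_num) (W_mul T 1 1 x y hx hy)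
  | smul c x _ hx => exact Submodule.smul_mem _ c hx

lemma nilSet_mono {T T' : Set E} (h : NilSet T') (hs : T ⊆ T') : NilSet T := by
  obtain ⟨n, hn⟩ := h
  exact ⟨n, fun l hl hlT => hn l hl fun x hx => hs (hlT x hx)⟩

/-- generator form of local nilpotency -/
lemma locNil_iff (J : Submodule F E) :
    LocNilAssoc F J ↔ ∀ s : Finset E, (∀ x ∈ s, x ∈ J) → NilSet (s : Set E) := by
  constructor
  · intro h s hs
    obtain ⟨n, hn⟩ := h s hs
    exact ⟨n, fun l hl hls => hn l hl fun x hx => NonUnitalAlgebra.subset_adjoin F (hls x hx)⟩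
  · intro h s hs
    exact nil_of_subset (h s hs) fun x hx =>
      Submodule.subset_span ⟨[x], by simp, by simpa using hx, by simp⟩

lemma ideal_prod {B : NonUnitalSubalgebra F E} {J : Submodule F E} (hJ : IsIdealOf F B J)
    (l : List E) (hl : ∀ x ∈ l, x ∈ B) (h : ∃ x ∈ l, x ∈ J) : l.prod ∈ J := by
  have hB : ∀ l : List E, l ≠ [] → (∀ x ∈ l, x ∈ B) → l.prod ∈ B := by
    intro l
    induction l with
    | nil => intro h; exact absurd rfl h
    | cons a l ih =>
      intro _ hl
      rcases l with _ | ⟨b, l⟩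
      · simpa using hl a (by simp)
      · rw [List.prod_cons]
        exact B.mul_mem (hl a (by simp)) (ih (by simp) fun x hx => hl x (List.mem_cons_of_mem _ hx))
  obtain ⟨x, hx, hxJ⟩ := h
  obtain ⟨l1, l2, rfl⟩ := List.append_of_mem hx
  rw [List.prod_append, List.prod_cons]
  have h1 : x * l2.prod ∈ J := by
    by_cases h2 : l2 = []
    · rw [h2]; simpa using hxJ
    · exact (hJ.2 _ (hB l2 h2 fun y hy => hl y (by simp [hy])) x hxJ).2
  by_cases h3 : l1 = []
  · rw [h3]; simpa using h1
  · exact (hJ.2 _ (hB l1 h3 fun y hy => hl y (by simp [hy])) _ h1).1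

lemma chunk (k m : ℕ) (T : Set E) (T' : Set E) (hT' : ∀ l : List E, l.length = k →
    (∀ x ∈ l, x ∈ T) → l.prod ∈ T' ∨ l.prod = 0) (l : List E) (hl : l.length = k * m)
    (hlT : ∀ x ∈ l, x ∈ T) :
    l.prod = 0 ∨ ∃ l' : List E, l'.length = m ∧ (∀ x ∈ l', x ∈ T') ∧ l.prod = l'.prod := by
  induction m generalizing l with
  | zero =>
    right
    have : l = [] := by
      rw [← List.length_eq_zero_iff, hl, Nat.mul_zero]
    exact ⟨[], rfl, by simp, by rw [this]⟩
  | succ m ih =>
    rw [← List.take_append_drop k l, List.prod_append]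
    have h1 := hT' (l.take k) (by rw [List.length_take, hl, Nat.mul_succ]; omega)
      (fun x hx => hlT x (List.mem_of_mem_take hx))
    have h2 := ih (l.drop k) (by rw [List.length_drop, hl, Nat.mul_succ]; omega)
      (fun x hx => hlT x (List.mem_of_mem_drop hx))
    rcases h1 with h1 | h1
    · rcases h2 with h2 | ⟨l', hl', hlT', he⟩
      · left; rw [h2, mul_zero]
      · right
        refine ⟨(l.take k).prod :: l', by simp [hl'], ?_, by rw [List.prod_cons, he]⟩
        intro x hx
        rcases List.mem_cons.1 hx with rfl | hx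
        · exact h1
        · exact hlT' x hx
    · left; rw [h1, zero_mul]

lemma finite_prods (k : ℕ) (T : Set E) (hT : T.Finite) :
    {x : E | ∃ l : List E, l.length = k ∧ (∀ y ∈ l, y ∈ T) ∧ x = l.prod}.Finite := by
  induction k with
  | zero =>
    refine (Set.finite_singleton (1 : E)).subset ?_
    rintro x ⟨l, hl, _, rfl⟩
    rw [List.length_eq_zero_iff] at hl
    simp [hl]
  | succ k ih =>
    refine (hT.mul ih).subset ?_
    rintro x ⟨l, hl, hlT, rfl⟩
    rcases l with _ | ⟨a, l⟩
    · simp at hl
    · rw [List.prod_cons]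
      exact Set.mul_mem_mul (hlT a (by simp)) ⟨l, by simpa using hl, fun y hy => hlT y (by simp [hy]), rfl⟩

lemma sup_locNil {B : NonUnitalSubalgebra F E} {J1 J2 : Submodule F E} (h1 : IsIdealOf F B J1)
    (h2 : IsIdealOf F B J2) (n1 : LocNilAssoc F J1) (n2 : LocNilAssoc F J2) :
    IsIdealOf F B (J1 ⊔ J2) ∧ LocNilAssoc F (J1 ⊔ J2) := by
  classical
  refine ⟨⟨sup_le h1.1 h2.1, ?_⟩, ?_⟩
  · intro b hb j hj
    obtain ⟨x, hx, y, hy, rfl⟩ := Submodule.mem_sup.1 hj
    rw [mul_add, add_mul]
    exact ⟨Submodule.add_mem_sup (h1.2 b hb x hx).1 (h2.2 b hb y hy).1,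
      Submodule.add_mem_sup (h1.2 b hb x hx).2 (h2.2 b hb y hy).2⟩
  · rw [locNil_iff] at n1 n2
    intro s hs
    have hch : ∀ x : E, ∃ a b : E, x ∈ s → a ∈ J1 ∧ b ∈ J2 ∧ a + b = x := by
      intro x
      by_cases hx : x ∈ s
      · obtain ⟨a, ha, b, hb, hab⟩ := Submodule.mem_sup.1 (hs x hx)
        exact ⟨a, b, fun _ => ⟨ha, hb, hab⟩⟩
      · exact ⟨0, 0, fun h => absurd h hx⟩
    choose a b hab using hch
    let TA : Finset E := s.image a
    let TB : Finset E := s.image b
    have hTA : ∀ x ∈ TA, x ∈ J1 := by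
      intro x hx
      obtain ⟨y, hy, rfl⟩ := Finset.mem_image.1 hx
      exact (hab y hy).1
    have hTB : ∀ x ∈ TB, x ∈ J2 := by
      intro x hx
      obtain ⟨y, hy, rfl⟩ := Finset.mem_image.1 hx
      exact (hab y hy).2.1
    obtain ⟨k, hk⟩ := n2 TB hTB
    have hfin := finite_prods k ((TA ∪ TB : Finset E) : Set E) (Finset.finite_toSet _)
    let T' : Finset E := hfin.toFinset.filter (fun x => x ∈ J1)
    obtain ⟨m, hm⟩ := n1 T' (fun x hx => (Finset.mem_filter.1 hx).2)
    have hB : ∀ x ∈ (TA ∪ TB : Finset E), x ∈ B := by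
      intro x hx
      rcases Finset.mem_union.1 hx with h | h
      · exact h1.1 (hTA x h)
      · exact h2.1 (hTB x h)
    have hnil : NilSet ((TA ∪ TB : Finset E) : Set E) := by
      refine ⟨k * m, fun l hl hlT => ?_⟩
      rcases chunk k m ((TA ∪ TB : Finset E) : Set E) (T' : Set E) (fun l hl hlT => by
        by_cases hall : ∀ x ∈ l, x ∈ TB
        · right; exact hk l hl hall
        · left
          push Not at hall
          obtain ⟨x, hx, hxB⟩ := hall
          have hxA : x ∈ TA := by
            rcases Finset.mem_union.1 (hlT x hx) with h | h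
            · exact h
            · exact absurd h hxB
          have hmem : l.prod ∈ J1 := ideal_prod h1 l (fun y hy => hB y (hlT y hy)) ⟨x, hx, hTA x hxA⟩
          rw [Finset.mem_coe, Finset.mem_filter]
          refine ⟨?_, hmem⟩
          rw [Set.Finite.mem_toFinset]
          exact ⟨l, hl, hlT, rfl⟩) l hl hlT with h | ⟨l', hl', hlT', he⟩
      · exact h
      · rw [he]; exact hm l' hl' hlT'
    refine nil_of_subset hnil ?_
    intro x hx
    rw [← (hab x hx).2.2]
    refine Submodule.add_mem _ ?_ ?_
    · refine Submodule.subset_span ⟨[a x], by simp, ?_, by simp⟩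
      intro y hy
      rw [List.mem_singleton] at hy
      subst hy
      exact Finset.mem_coe.2 (Finset.mem_union_left _ (Finset.mem_image_of_mem _ hx))
    · refine Submodule.subset_span ⟨[b x], by simp, ?_, by simp⟩
      intro y hy
      rw [List.mem_singleton] at hy
      subst hy
      exact Finset.mem_coe.2 (Finset.mem_union_right _ (Finset.mem_image_of_mem _ hx))

lemma radical_spec (B : NonUnitalSubalgebra F E) (x : E) (hx : x ∈ AssocRadical F B) :
    ∃ J : Submodule F E, IsIdealOf F B J ∧ LocNilAssoc F J ∧ x ∈ J := by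
  have hne : {J : Submodule F E | IsIdealOf F B J ∧ LocNilAssoc F J}.Nonempty := by
    refine ⟨⊥, ⟨bot_le, ?_⟩, ?_⟩
    · intro b _ j hj
      rw [Submodule.mem_bot] at hj
      subst hj
      simp
    · rw [locNil_iff]
      intro s hs
      refine ⟨1, fun l hl hlT => ?_⟩
      obtain ⟨a, rfl⟩ := List.length_eq_one_iff.1 hl
      have := hs a (hlT a (by simp))
      simpa using this
  have hdir : DirectedOn (· ≤ ·) {J : Submodule F E | IsIdealOf F B J ∧ LocNilAssoc F J} := by
    rintro J1 ⟨h1, n1⟩ J2 ⟨h2, n2⟩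
    exact ⟨J1 ⊔ J2, sup_locNil h1 h2 n1 n2, le_sup_left, le_sup_right⟩
  obtain ⟨J, hJ, hx⟩ := (Submodule.mem_sSup_of_directed hne hdir).1 hx
  exact ⟨J, hJ.1, hJ.2, hx⟩

end assoclem

section transfer

variable {F : Type u} [Field F] {A : Type u} [LieRing A] [LieAlgebra F A]

lemma R_mem (a : A) : R F A a ∈ MultAlg F A := NonUnitalAlgebra.subset_adjoin F ⟨a, rfl⟩

lemma R_lie (x b : A) : R F A ⁅x, b⁆ = R F A b * R F A x - R F A x * R F A b := by
  ext y
  simp only [R_apply, LinearMap.sub_apply, Module.End.mul_apply]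
  rw [leibniz_lie, ← lie_skew x ⁅y, b⁆]
  abel

/-- The ideal of all `b` with `R_b` in a given two-sided ideal of the multiplication algebra. -/
def pull (J : Submodule F (Module.End F A)) (hJ : IsIdealOf F (MultAlg F A) J) : LieIdeal F A where
  carrier := {b | R F A b ∈ J}
  add_mem' := by
    intro a b ha hb
    have : R F A (a + b) = R F A a + R F A b := by ext y; simp [R_apply]
    change R F A (a + b) ∈ J
    rw [this]
    exact J.add_mem ha hb
  zero_mem' := by
    have : R F A 0 = 0 := by ext y; simp [R_apply]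
    change R F A 0 ∈ J
    rw [this]
    exact J.zero_mem
  smul_mem' := by
    intro c a ha
    have : R F A (c • a) = c • R F A a := by ext y; simp [R_apply]
    change R F A (c • a) ∈ J
    rw [this]
    exact J.smul_mem c ha
  lie_mem := by
    intro x b hb
    change R F A ⁅x, b⁆ ∈ J
    rw [R_lie]
    exact J.sub_mem (hJ.2 _ (R_mem x) _ hb).2 (hJ.2 _ (R_mem x) _ hb).1

lemma pull_locNil (J : Submodule F (Module.End F A)) (hJ : IsIdealOf F (MultAlg F A) J)
    (nJ : LocNilAssoc F J) : LocNilLie F A (pull J hJ) := by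
  classical
  intro s hs
  rw [locNil_iff] at nJ
  obtain ⟨n, hn⟩ := nJ (s.image (R F A)) (by
    intro x hx
    obtain ⟨y, hy, rfl⟩ := Finset.mem_image.1 hx
    exact hs y hy)
  let T0 : Finset (Module.End F A) := s.image (R F A)
  let T : Set (Module.End F A) := (T0 : Set (Module.End F A))
  have hW : ∀ c ∈ LieSubalgebra.lieSpan F A (s : Set A), R F A c ∈ W F T 1 := by
    intro c hc
    induction hc using LieSubalgebra.lieSpan_induction with
    | mem x hx =>
      refine Submodule.subset_span ⟨[R F A x], by simp, ?_, by simp⟩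
      intro y hy
      rw [List.mem_singleton] at hy
      subst hy
      exact Finset.mem_coe.2 (Finset.mem_image_of_mem _ hx)
    | zero =>
      have : R F A 0 = 0 := by ext y; simp [R_apply]
      rw [this]
      exact Submodule.zero_mem _
    | smul c a _ ha =>
      have : R F A (c • a) = c • R F A a := by ext y; simp [R_apply]
      rw [this]
      exact Submodule.smul_mem _ c ha
    | add a b _ _ ha hb =>
      have : R F A (a + b) = R F A a + R F A b := by ext y; simp [R_apply]
      rw [this]
      exact Submodule.add_mem _ ha hb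
    | lie a b _ _ ha hb =>
      rw [R_lie]
      exact Submodule.sub_mem _ (W_anti T (by norm_num) (W_mul T 1 1 _ _ hb ha))
        (W_anti T (by norm_num) (W_mul T 1 1 _ _ ha hb))
  let P : ℕ → Submodule F A := fun k =>
    { carrier := {m | ∀ l : List A, l.length + k = n →
        (∀ x ∈ l, x ∈ LieSubalgebra.lieSpan F A (s : Set A)) → (l.map (R F A)).prod m = 0}
      add_mem' := by
        intro a b ha hb l hl hlL
        rw [map_add, ha l hl hlL, hb l hl hlL, add_zero]
      zero_mem' := by
        intro l _ _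
        rw [map_zero]
      smul_mem' := by
        intro c a ha l hl hlL
        rw [map_smul, ha l hl hlL, smul_zero] }
  refine nilpotent_of_chain _ P ?_ ?_ n ?_
  · intro x _ l hl hlL
    have h1 : (l.map (R F A)).prod = 0 := by
      refine W_eq_zero (F := F) hn _ ?_
      have h2 := prod_W (F := F) T (l.map (R F A)) (by
        intro y hy
        obtain ⟨z, hz, rfl⟩ := List.mem_map.1 hy
        exact hW z (hlL z hz))
      rw [List.length_map] at h2
      have h3 : l.length = n := by omega
      rw [h3] at h2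
      exact h2
    rw [h1]
    rfl
  · intro k x hx y _ hy l hl hlL
    have h1 := hy (l ++ [x]) (by rw [List.length_append, List.length_singleton]; omega) (by
      intro z hz
      rcases List.mem_append.1 hz with h | h
      · exact hlL z h
      · rw [List.mem_singleton] at h
        rw [h]
        exact hx)
    rw [List.map_append, List.prod_append] at h1
    simp only [List.map_cons, List.map_nil, List.prod_cons, List.prod_nil, mul_one,
      Module.End.mul_apply, R_apply] at h1
    rw [← lie_skew, map_neg, h1, neg_zero]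
  · intro y hy
    have := hy [] (by simp) (by simp)
    simpa using this

/-- If `R_a` lies in the locally nilpotent radical of the multiplication algebra then `a` lies in
the locally nilpotent radical of the Lie algebra. -/
lemma mem_of_R_mem (a : A) (ha : R F A a ∈ AssocRadical F (MultAlg F A)) :
    a ∈ LieRadical F A := by
  obtain ⟨J, hJ, nJ, haJ⟩ := radical_spec _ _ ha
  have h1 : pull J hJ ≤ LieRadical F A := le_sSup (pull_locNil J hJ nJ)
  exact h1 haJ

end transfer

section example1

variable (F : Type u) [Field F]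

/-- the module: one infinite Jordan block -/
abbrev M : Type u := ℕ →₀ F

/-- the locally nilpotent shift -/
noncomputable def T : M F →ₗ[F] M F :=
  Finsupp.lift (M F) F ℕ (fun k => if k = 0 then 0 else Finsupp.single (k - 1) 1)

lemma T_single (k : ℕ) : T F (Finsupp.single k 1) =
    if k = 0 then 0 else Finsupp.single (k - 1) 1 := by
  simp [T]

/-- the Lie algebra `F a ⊕ M` with `[m, a] = T m` -/
def A1 : Type u := F × M F

noncomputable instance : AddCommGroup (A1 F) := inferInstanceAs (AddCommGroup (F × M F))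

noncomputable instance : Module F (A1 F) := inferInstanceAs (Module F (F × M F))

/-- the element `c a + v` -/
def mk (c : F) (v : M F) : A1 F := (c, v)

noncomputable instance : LieRing (A1 F) where
  bracket x y := mk F 0 (y.1 • T F x.2 - x.1 • T F y.2)
  add_lie x y z := by
    refine Prod.ext ?_ ?_
    · change (0 : F) = 0 + 0
      simp
    · change z.1 • T F (x.2 + y.2) - (x.1 + y.1) • T F z.2 =
        (z.1 • T F x.2 - x.1 • T F z.2) + (z.1 • T F y.2 - y.1 • T F z.2)
      rw [map_add, smul_add, add_smul]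
      abel
  lie_add x y z := by
    refine Prod.ext ?_ ?_
    · change (0 : F) = 0 + 0
      simp
    · change (y.1 + z.1) • T F x.2 - x.1 • T F (y.2 + z.2) =
        (y.1 • T F x.2 - x.1 • T F y.2) + (z.1 • T F x.2 - x.1 • T F z.2)
      rw [map_add, smul_add, add_smul]
      abel
  lie_self x := by
    refine Prod.ext rfl ?_
    change x.1 • T F x.2 - x.1 • T F x.2 = 0
    rw [sub_self]
  leibniz_lie x y z := by
    refine Prod.ext ?_ ?_
    · change (0 : F) = 0 + 0
      simp
    · change (0 : F) • T F x.2 - x.1 • T F (z.1 • T F y.2 - y.1 • T F z.2) =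
        (z.1 • T F (y.1 • T F x.2 - x.1 • T F y.2) - (0 : F) • T F z.2) +
        ((0 : F) • T F y.2 - y.1 • T F (z.1 • T F x.2 - x.1 • T F z.2))
      simp only [map_sub, map_smul, smul_sub, smul_smul, zero_smul, zero_sub, sub_zero]
      rw [mul_comm z.1 y.1, mul_comm z.1 x.1, mul_comm y.1 x.1]
      abel

noncomputable instance : LieAlgebra F (A1 F) where
  lie_smul c x y := by
    refine Prod.ext ?_ ?_
    · change (0 : F) = c • 0
      simp
    · change (c * y.1) • T F x.2 - x.1 • T F (c • y.2) = c • (y.1 • T F x.2 - x.1 • T F y.2)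
      rw [map_smul, smul_sub, smul_smul, smul_smul, smul_smul, mul_comm x.1 c]

/-- `T` lowers the support -/
lemma T_pow_zero (v : M F) : ∃ k : ℕ, ((T F) ^ k) v = 0 := by
  induction v using Finsupp.induction_linear with
  | zero => exact ⟨0, by simp⟩
  | add v w hv hw =>
    obtain ⟨k, hk⟩ := hv
    obtain ⟨l, hl⟩ := hw
    refine ⟨k + l, ?_⟩
    rw [map_add, pow_add, Module.End.mul_apply, Module.End.mul_apply, hl, map_zero, add_zero,
      ← Module.End.mul_apply, ← pow_add, Nat.add_comm, pow_add, Module.End.mul_apply, hk, map_zero]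
  | single k c =>
    refine ⟨k + 1, ?_⟩
    rw [← mul_one c, ← smul_eq_mul, ← Finsupp.smul_single, map_smul]
    have : ∀ k : ℕ, ((T F) ^ (k + 1)) (Finsupp.single k (1 : F)) = 0 := by
      intro k
      induction k with
      | zero => simp [T_single]
      | succ k ih =>
        rw [pow_succ, Module.End.mul_apply, T_single, if_neg (by omega)]
        exact ih
    rw [this, smul_zero]

lemma R_snd (x y : A1 F) : R F (A1 F) x y = mk F 0 (x.1 • T F y.2 - y.1 • T F x.2) := rfl

lemma R_pow (x : A1 F) (v : M F) (k : ℕ) :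
    ((R F (A1 F) x) ^ k) (mk F 0 v) = mk F 0 (x.1 ^ k • ((T F) ^ k) v) := by
  induction k with
  | zero => simp
  | succ k ih =>
    rw [pow_succ', Module.End.mul_apply, ih, R_snd]
    refine congrArg (mk F 0) ?_
    change x.1 • T F (x.1 ^ k • ((T F) ^ k) v) - (0 : F) • T F x.2 = _
    rw [zero_smul, sub_zero, map_smul, smul_smul, ← pow_succ', pow_succ' (T F),
      Module.End.mul_apply]

lemma engel : IsEngel F (A1 F) := by
  intro x y
  obtain ⟨k, hk⟩ := T_pow_zero F (x.1 • T F y.2 - y.1 • T F x.2)
  refine ⟨k + 1, by omega, ?_⟩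
  rw [pow_succ, Module.End.mul_apply, R_snd, R_pow, hk, smul_zero]
  rfl

/-- vectors killed by `T ^ k` form a decreasing chain -/
noncomputable def P (N k : ℕ) : Submodule F (A1 F) where
  carrier := {x | (1 ≤ k → x.1 = 0) ∧ ((T F) ^ (N - k)) x.2 = 0}
  add_mem' := by
    rintro a b ⟨h1, h2⟩ ⟨h3, h4⟩
    refine ⟨fun hk => ?_, ?_⟩
    · change a.1 + b.1 = 0
      rw [h1 hk, h3 hk, add_zero]
    · change ((T F) ^ (N - k)) (a.2 + b.2) = 0
      rw [map_add, h2, h4, add_zero]
  zero_mem' := by
    refine ⟨fun _ => rfl, ?_⟩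
    change ((T F) ^ (N - k)) 0 = 0
    rw [map_zero]
  smul_mem' := by
    rintro c a ⟨h1, h2⟩
    refine ⟨fun hk => ?_, ?_⟩
    · change c * a.1 = 0
      rw [h1 hk, mul_zero]
    · change ((T F) ^ (N - k)) (c • a.2) = 0
      rw [map_smul, h2, smul_zero]

lemma locNil_top : LocNilLie F (A1 F) ⊤ := by
  classical
  intro s hs
  clear hs
  have hN : ∃ N : ℕ, ∀ x ∈ s, ((T F) ^ N) x.2 = 0 := by
    induction s using Finset.induction_on with
    | empty => exact ⟨0, by simp⟩
    | insert a s _ ih =>
      obtain ⟨N, hN⟩ := ih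
      obtain ⟨k, hk⟩ := T_pow_zero F a.2
      refine ⟨N + k, ?_⟩
      intro x hx
      rcases Finset.mem_insert.1 hx with rfl | hx
      · rw [pow_add, Module.End.mul_apply, hk, map_zero]
      · rw [Nat.add_comm, pow_add, Module.End.mul_apply, hN x hx, map_zero]
  obtain ⟨N, hN⟩ := hN
  have hL : ∀ x ∈ LieSubalgebra.lieSpan F (A1 F) (s : Set (A1 F)), ((T F) ^ N) x.2 = 0 := by
    intro x hx
    induction hx using LieSubalgebra.lieSpan_induction with
    | mem x hx => exact hN x hx
    | zero =>
      change ((T F) ^ N) 0 = 0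
      rw [map_zero]
    | smul c a _ ha =>
      change ((T F) ^ N) (c • a.2) = 0
      rw [map_smul, ha, smul_zero]
    | add a b _ _ ha hb =>
      change ((T F) ^ N) (a.2 + b.2) = 0
      rw [map_add, ha, hb, add_zero]
    | lie a b _ _ ha hb =>
      change ((T F) ^ N) (b.1 • T F a.2 - a.1 • T F b.2) = 0
      rw [map_sub, map_smul, map_smul, ← Module.End.mul_apply, ← Module.End.mul_apply,
        ← pow_succ, pow_succ', Module.End.mul_apply, Module.End.mul_apply, ha, hb]
      simp
  refine nilpotent_of_chain _ (P F (N + 1)) ?_ ?_ (N + 1) ?_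
  · intro x hx
    refine ⟨fun h => absurd h (by omega), ?_⟩
    rw [Nat.sub_zero, pow_succ', Module.End.mul_apply, hL x hx, map_zero]
  · intro k x hx y hy hyP
    refine ⟨fun _ => rfl, ?_⟩
    change ((T F) ^ (N + 1 - (k + 1))) (y.1 • T F x.2 - x.1 • T F y.2) = 0
    have h1 : ((T F) ^ (N + 1 - (k + 1))) (T F y.2) = 0 := by
      rw [← Module.End.mul_apply, ← pow_succ]
      by_cases hk : k ≤ N
      · have : N + 1 - (k + 1) + 1 = N + 1 - k := by omega
        rw [this]
        exact hyP.2
      · have h2 := hyP.2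
        have h3 : N + 1 - k = 0 := by omega
        rw [h3] at h2
        have h4 : y.2 = 0 := h2
        rw [h4, map_zero]
    rw [map_sub, map_smul, map_smul, h1, smul_zero, sub_zero]
    by_cases hk : k = 0
    · subst hk
      have h2 : ((T F) ^ (N + 1 - (0 + 1))) (T F x.2) = 0 := by
        rw [← Module.End.mul_apply, ← pow_succ]
        have : N + 1 - (0 + 1) + 1 = N + 1 := by omega
        rw [this, pow_succ', Module.End.mul_apply, hL x hx, map_zero]
      rw [h2, smul_zero]
    · have h2 : y.1 = 0 := hyP.1 (by omega)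
      rw [h2, zero_smul]
  · rintro y ⟨h1, h2⟩
    rw [Nat.sub_self] at h2
    exact Prod.ext (h1 (by omega)) h2

/-- the Lie algebra coincides with its locally nilpotent radical -/
lemma radical_top (x : A1 F) : x ∈ LieRadical F (A1 F) := by
  have h1 : (⊤ : LieIdeal F (A1 F)) ≤ LieRadical F (A1 F) := le_sSup (locNil_top F)
  exact h1 (LieSubmodule.mem_top x)

lemma T_pow_single (i k : ℕ) : ((T F) ^ i) (Finsupp.single k (1 : F)) =
    if i ≤ k then Finsupp.single (k - i) 1 else 0 := by
  induction i with
  | zero => simp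
  | succ i ih =>
    rw [pow_succ', Module.End.mul_apply, ih]
    by_cases h : i ≤ k
    · rw [if_pos h, T_single]
      by_cases h2 : k - i = 0
      · rw [if_pos h2, if_neg (by omega)]
      · rw [if_neg h2, if_pos (by omega)]
        congr 1
    · rw [if_neg h, if_neg (by omega), map_zero]

lemma R_not_mem : R F (A1 F) (mk F 1 0) ∉ AssocRadical F (MultAlg F (A1 F)) := by
  classical
  intro h
  obtain ⟨J, hJ, nJ, hR⟩ := radical_spec _ _ h
  rw [locNil_iff] at nJ
  obtain ⟨n, hn⟩ := nJ {R F (A1 F) (mk F 1 0)} (by simpa using hR)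
  have h1 := hn (List.replicate n (R F (A1 F) (mk F 1 0))) (by simp) (by
    intro x hx
    rw [List.eq_of_mem_replicate hx]
    simp)
  rw [List.prod_replicate] at h1
  have h2 := congrArg (fun f : Module.End F (A1 F) => f (mk F 0 (Finsupp.single n 1))) h1
  have h3 : ((R F (A1 F) (mk F 1 0)) ^ n) (mk F 0 (Finsupp.single n 1)) = 0 := h2
  rw [R_pow] at h3
  have h4 : (1 : F) ^ n • ((T F) ^ n) (Finsupp.single n 1) = 0 := congrArg Prod.snd h3
  rw [one_pow, one_smul, T_pow_single, if_pos le_rfl] at h4
  simp at h4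

end example1

/-- Part 1: for every Lie algebra `A` (Engel or not) `R_a ∈ L(A*)` implies `a ∈ L(A)`.
Part 2: over every field there is an Engel Lie algebra `A` with an element `a ∈ L(A)`
(even `L(A) = A`) such that `R_a ∉ L(A*)`. -/
theorem result (F : Type u) [Field F] :
    (∀ (A : Type u) [LieRing A] [LieAlgebra F A] (a : A),
      R F A a ∈ AssocRadical F (MultAlg F A) → a ∈ LieRadical F A) ∧
    ∃ (A : Type u) (_ : LieRing A) (_ : LieAlgebra F A), IsEngel F A ∧ LieRadical F A = ⊤ ∧
      ∃ a : A, a ∈ LieRadical F A ∧ R F A a ∉ AssocRadical F (MultAlg F A) := by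
  refine ⟨fun A _ _ a ha => mem_of_R_mem a ha, A1 F, inferInstance, inferInstance, engel F, ?_,
    (mk F 1 0), radical_top F _, R_not_mem F⟩
  rw [eq_top_iff]
  intro x _
  exact radical_top F x

end Pool.Agent.Results.MP_2c0ed3_al.RadicalTransfer
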